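import Pool.Agent.R526.LPB.Fin

set_option autoImplicit false

/-!
# Perfect equidistribution to every level does not produce gaps of length `(log X)^(2+ε)`

Author: helper526.

All known lower bounds for `G(x)` use, about the starting point `n` of the gap, nothing but its distribution in
residue classes modulo `d`, `d` up to a power of `X` (weights of the form `w(n) = ∑_{d ≤ X^A} v_d(n)`, `v_d` of
period `d`; in the proofs they are nonnegative). The theorem shows that no argument of this kind, with weights of
ARBITRARY sign and for EVERY power `X^A`, can give intervals `(n, n + U]`, `U ≥ (log X)^(2+ε)`, with fewer than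
`c U φ(M)/M` integers prime to `M` (`M` any integer with prime factors `≤ X^A`, for instance their product;
`c = c(ε)` does not depend on `A`). Namely there is a probability measure `f(n)/N` on the integers modulo `N`
(`N` any common multiple) which
* has exactly the mass `1/d` in every residue class modulo `d`, for all `d ≤ X^A`;
* is supported on integers `n` for which `(n, n + U]` contains at least `c U φ(M)/M` integers prime to `M`;
* differs from the uniform measure by at most `X^(-A)` in total variation norm.

Consequently every `w = ∑_{d ≤ X^A} v_d` with `∑_{n<N} w(n) > 0` is positive at some `n` in the support. This is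
the linear programming dual of the statement for sieve weights; the results in the starting files (helper829:
nonnegative weights) do not contain it, since nonnegativity of `w` is not assumed here.

Proof. Large deviations for the sieve (starting files, `Y829.tail`, helper829): the bad `n` have proportion
at most `exp(-3 U^a)`, `U^a > (log X)^(1+η)`. A function of level `Q` has `‖ρ‖_∞ ≤ Q² ‖ρ‖_2`, so it is
determined by its values outside the bad set `B`, the quadratic form `∑_{n ∉ B} ρ(n)²` is nondegenerate on
the space of these functions, and one can solve `∑_{n ∉ B} (1 + ρ) g = ∑_n g` for all `g` of level `Q`; then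
`f = 1_{n ∉ B} (1 + ρ)`.
-/

open Finset

/-- For every `ε > 0` there is `c > 0` such that for all `A > 0` and all large `X`: if `U ≥ (log X)^(2+ε)`, all
prime factors of `M` are at most `X^A`, and `N > 0` is a multiple of `M` and of all `d ≤ X^A`, then some
`N`-periodic `f` with values in `[0, 2]` has the exact sum `N/d` over the `n < N` in each residue class modulo
each `d ≤ X^A`, vanishes unless `(n, n+U]` contains at least `c U φ(M)/M` integers prime to `M`, and satisfies
`∑_{n<N} |f(n) - 1| ≤ N X^(-A)`. -/
theorem Pool.Agent.Results.MP_f9960f_nt.LevelOfDistributionBarrier.result (ε : ℝ) (hε : 0 < ε) :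
    ∃ c : ℝ, 0 < c ∧ ∀ A : ℝ, 0 < A → ∃ X₀ : ℝ, ∀ X : ℝ, X₀ ≤ X → ∀ U M N : ℕ,
      (Real.log X) ^ (2 + ε) ≤ U → (∀ p : ℕ, p.Prime → p ∣ M → (p : ℝ) ≤ X ^ A) →
      0 < N → M ∣ N → (∀ d : ℕ, 1 ≤ d → (d : ℝ) ≤ X ^ A → d ∣ N) →
      ∃ f : ℕ → ℝ, (∀ n, 0 ≤ f n ∧ f n ≤ 2) ∧ (∀ n, f (n + N) = f n) ∧
        (∀ n, f n ≠ 0 → c * U * ((M.totient : ℝ) / M) ≤
          (((Icc 1 U).filter (fun h => (n + h).Coprime M)).card : ℝ)) ∧
        (∀ d : ℕ, 1 ≤ d → (d : ℝ) ≤ X ^ A → ∀ b : ℕ,
          ∑ n ∈ (range N).filter (fun n => n ≡ b [MOD d]), f n = N / d) ∧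
        ∑ n ∈ range N, |f n - 1| ≤ N / X ^ A :=
  Pool.Agent.R526.LPB.lpb ε hε
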