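import Mathlib
import Pool.Agent.R528.RM.Rec2
import Pool.Agent.R528.RM.HawkinsViol

set_option autoImplicit false

/-!
# The number of maximal gaps in random models of the primes

A gap between consecutive members of a set `S` of integers is a maximal gap if it is longer than all
the gaps before it.  For the primes, the maximal gaps are 1, 2, 4, 6, 8, 14, 18, 20, ...

The theorem below counts the maximal gaps in random models.  In the first part the integers are
decided one after the other, and the only assumption is that the conditional probability of choosing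
`n + 1`, given the decisions up to `n`, is `(1 + o(1)) / log n` almost surely; no independence is
assumed.  The second part is the case of the Hawkins random sieve.  Almost surely

* the number of maximal gaps that end at or before `x` is asymptotic to `2 log x`;
* the number of maximal gaps of length at most `y` is asymptotic to `2 √y`; in other words the
  `k`-th maximal gap is asymptotic to `k² / 4`.
-/

open MeasureTheory ProbabilityTheory Filter
open scoped Topology

namespace Pool.Agent.Results.MP_f9960f_nt.NumberOfMaximalGaps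

/-- the conditional probability that `n + 1` is chosen, given the information up to `n` -/
noncomputable def density {Ω : Type} {mΩ : MeasurableSpace Ω} (μ : Measure Ω) (ℱ : Filtration ℕ mΩ)
    (A : ℕ → Set Ω) (n : ℕ) : Ω → ℝ := μ[(A (n + 1)).indicator (fun _ => (1 : ℝ)) | ℱ n]

/-- `a < b` are consecutive members of `S` -/
def Consecutive (S : Set ℕ) (a b : ℕ) : Prop := a ∈ S ∧ b ∈ S ∧ a < b ∧ ∀ m, a < m → m < b → m ∉ S

/-- the gap from `a` to `b` is a maximal gap of `S`: it is longer than every earlier gap -/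
def IsMaximalGap (S : Set ℕ) (a b : ℕ) : Prop :=
  Consecutive S a b ∧ ∀ c d, Consecutive S c d → d ≤ a → d - c < b - a

/-- the number of maximal gaps of `S` ending at or before `x` -/
noncomputable def maxGapsUpTo (S : Set ℕ) (x : ℕ) : ℕ := {b | b ≤ x ∧ ∃ a, IsMaximalGap S a b}.ncard

/-- the number of maximal gaps of `S` of length at most `y` -/
noncomputable def maxGapsOfLength (S : Set ℕ) (y : ℕ) : ℕ := {b | ∃ a, IsMaximalGap S a b ∧ b - a ≤ y}.ncard

/-- `n` is kept by the sieve in which `r j n` means that `j`, if it is kept itself, strikes out the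
larger number `n`: the number `n` is at least `2` and no smaller kept number strikes it out -/
def Kept (r : ℕ → ℕ → Prop) (n : ℕ) : Prop :=
  2 ≤ n ∧ ∀ j : Fin n, Kept r j → ¬ r j n
termination_by n
decreasing_by exact j.2

/-- the Hawkins primes of the outcome `ω`, where `R j n` is the event that `j` strikes out `n` -/
def hawkins {Ω : Type} (R : ℕ → ℕ → Set Ω) (ω : Ω) : Set ℕ := {n | Kept (fun j n => ω ∈ R j n) n}

lemma kept_eq (r : ℕ → ℕ → Prop) (n : ℕ) : Kept r n ↔ Pool.Agent.R528.RM.Survives r n := by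
  induction n using Nat.strong_induction_on with
  | _ n ih =>
    rw [Kept, Pool.Agent.R528.RM.Survives]
    constructor
    · rintro ⟨h1, h2⟩
      exact ⟨h1, fun j hj => h2 j ((ih j j.2).2 hj)⟩
    · rintro ⟨h1, h2⟩
      exact ⟨h1, fun j hj => h2 j ((ih j j.2).1 hj)⟩

lemma hawkins_eq {Ω : Type} (R : ℕ → ℕ → Set Ω) (ω : Ω) :
    hawkins R ω = Pool.Agent.R528.RM.rset (Pool.Agent.R528.RM.surv R) ω := by
  ext n
  exact kept_eq _ n

/-- the general law -/
lemma law {Ω : Type} [mΩ : MeasurableSpace Ω] (μ : Measure Ω) [IsProbabilityMeasure μ]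
    (ℱ : Filtration ℕ mΩ) (A : ℕ → Set Ω) (hA : ∀ n, MeasurableSet[ℱ n] (A n))
    (hd : ∀ᵐ ω ∂μ, Tendsto (fun n : ℕ => density μ ℱ A n ω * Real.log n) atTop (𝓝 1)) :
    ∀ᵐ ω ∂μ, Tendsto (fun x : ℕ => (maxGapsUpTo {n | ω ∈ A n} x : ℝ) / Real.log x) atTop (𝓝 2) ∧
      Tendsto (fun y : ℕ => (maxGapsOfLength {n | ω ∈ A n} y : ℝ) / √y) atTop (𝓝 2) := by
  filter_upwards [Pool.Agent.R528.RM.rec_law hA hd] with ω hω
  obtain ⟨h1, h2, p₀, hp₀⟩ := hω
  exact ⟨h2, Pool.Agent.R528.RM.mgs_law hp₀ h1 h2⟩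

end Pool.Agent.Results.MP_f9960f_nt.NumberOfMaximalGaps

open Pool.Agent.Results.MP_f9960f_nt.NumberOfMaximalGaps

theorem Pool.Agent.Results.MP_f9960f_nt.NumberOfMaximalGaps.result :
    (∀ {Ω : Type} [mΩ : MeasurableSpace Ω] (μ : Measure Ω) [IsProbabilityMeasure μ]
      (ℱ : Filtration ℕ mΩ) (A : ℕ → Set Ω), (∀ n, MeasurableSet[ℱ n] (A n)) →
      (∀ᵐ ω ∂μ, Tendsto (fun n : ℕ => density μ ℱ A n ω * Real.log n) atTop (𝓝 1)) →
      ∀ᵐ ω ∂μ, Tendsto (fun x : ℕ => (maxGapsUpTo {n | ω ∈ A n} x : ℝ) / Real.log x) atTop (𝓝 2) ∧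
        Tendsto (fun y : ℕ => (maxGapsOfLength {n | ω ∈ A n} y : ℝ) / √y) atTop (𝓝 2)) ∧
    (∀ {Ω : Type} [MeasurableSpace Ω] (μ : Measure Ω) [IsProbabilityMeasure μ] (R : ℕ → ℕ → Set Ω),
      (∀ j n, MeasurableSet (R j n)) → iIndepSet (fun x : ℕ × ℕ => R x.1 x.2) μ →
      (∀ j n, 2 ≤ j → j < n → μ.real (R j n) = 1 / j) →
      ∀ᵐ ω ∂μ, Tendsto (fun x : ℕ => (maxGapsUpTo (hawkins R ω) x : ℝ) / Real.log x) atTop (𝓝 2) ∧
        Tendsto (fun y : ℕ => (maxGapsOfLength (hawkins R ω) y : ℝ) / √y) atTop (𝓝 2)) := by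
  refine ⟨fun μ _ ℱ A hA hd => law μ ℱ A hA hd, ?_⟩
  intro Ω _ μ _ R hR hI hp
  have h1 : ∀ᵐ ω ∂μ, ∀ n, 1 ≤ n → Pool.Agent.R528.RM.Dd R n ω =
      Pool.Agent.R528.RM.dens μ (Pool.Agent.R528.RM.hist hR) (Pool.Agent.R528.RM.surv R) n ω := by
    rw [ae_all_iff]
    intro n
    by_cases hn : 1 ≤ n
    · filter_upwards [Pool.Agent.R528.RM.dens_eq hR hI hp n hn] with ω hω _
      exact hω
    · exact Eventually.of_forall fun ω h => absurd h hn
  have h2 := law μ (Pool.Agent.R528.RM.hist hR) (Pool.Agent.R528.RM.surv R) (Pool.Agent.R528.RM.surv_meas hR) (by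
    filter_upwards [h1, Pool.Agent.R528.RM.Yy_lim hR hI hp] with ω h1 ⟨C, hC⟩
    have hlog : Tendsto (fun n : ℕ => Real.log (n : ℝ)) atTop atTop := Real.tendsto_log_atTop.comp tendsto_natCast_atTop_atTop
    have h3 := (hC.div_atTop hlog).add_const 1
    rw [zero_add] at h3
    have h4 := h3.inv₀ one_ne_zero
    rw [inv_one] at h4
    refine h4.congr' ?_
    filter_upwards [eventually_ge_atTop 1, hlog.eventually_gt_atTop 0] with n hn hn2
    have h5 := h1 n hn
    have h6 : density μ (Pool.Agent.R528.RM.hist hR) (Pool.Agent.R528.RM.surv R) n ω = Pool.Agent.R528.RM.Dd R n ω := h5.symm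
    have h7 : Pool.Agent.R528.RM.Yy R n ω * Pool.Agent.R528.RM.Dd R n ω = 1 := Pool.Agent.R528.RM.Yy_mul_Dd n ω
    have h8 := Pool.Agent.R528.RM.Yy_pos (R := R) n ω
    rw [h6]
    have h9 : Pool.Agent.R528.RM.Dd R n ω = (Pool.Agent.R528.RM.Yy R n ω)⁻¹ := by
      field_simp
      linarith
    rw [h9]
    field_simp
    rw [sub_add_cancel, div_self h8.ne'])
  filter_upwards [h2] with ω hω
  rw [hawkins_eq]
  exact hω
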