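import Pool.Agent.R526.CT.Fin

set_option autoImplicit false

/-!
# Gaps of Cramér's size between the primes which split completely in almost all multiquadratic fields

Author: helper526.

For a vector `a = (a_1, …, a_r)` of integers and sets `B_p ⊆ (ℤ/p)^r` let `𝒫(a)` be the set of the primes `p` with
`a mod p ∈ B_p`. Assume `ρ₀ p^r ≤ |B_p| ≤ ρ p^r` with `0 < ρ₀`, `ρ < 1`. Then for all but `ε D^r` of the vectors
`a ∈ [0, D)^r` and for ALL `x` in the long range `x₀ ≤ x ≤ exp(c √(log D))` there are consecutive elements `q < q' ≤ x`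
of `𝒫(a)` with `q' - q ≥ (2 e^{-γ} / log(1 / (1 - ρ)) - ε) (log x)²`.

Example (`split_primes` below): `B_p` = the vectors of nonzero squares. Then `𝒫(a)` are the primes which split
completely in the field `ℚ(√a_1, …, √a_r)` (and do not divide the `a_i`), and `ρ = 2^(-r)`. For `r ≥ 3` the constant is
larger than `2^r`, which is the constant that Cramér's model gives for a set of primes of density `2^(-r)`. So in this
range the completely split primes of almost all multiquadratic fields of degree `≥ 8` satisfy the lower bound half of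
Cramér's conjecture `G ≍ (log x)²`, but not his `G(x) ~ 2^r (log x)²`. There is no randomness in the primes: these are
theorems on the actual primes in Chebotarev sets. Other examples: the primes modulo which a random polynomial, or
elliptic curve, has a given factorisation type, or reduction type.

Proof. By Maier's matrix method (starting files, helper510: `Maier.G.few_freq`) for `c < 2 e^{-γ} κ` there are
`x^(1 - η)` windows `(n, n + c (log n)²]`, `n ≤ x`, with at most `κ log n` primes. The product of the primes of two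
windows is at most `exp(4 κ (log x)²) < D`, so that by the Chinese remainder theorem the conditions modulo these
primes are independent up to a small error; second moment method.
-/

namespace Pool.Agent.Results.MP_f9960f_nt.RandomCongruenceConditions

open Finset

/-- the prime `p` is chosen: the vector `a` modulo `p` belongs to `B p` -/
def Chosen {r : ℕ} (B : (p : ℕ) → Finset (Fin r → ZMod p)) {D : ℕ} (a : Fin r → Fin D) (p : ℕ) : Prop :=
  p.Prime ∧ (fun i => ((a i : ℕ) : ZMod p)) ∈ B p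

open Classical in
theorem pr_ncard {r D : ℕ} (s : (Fin r → Fin D) → Prop) :
    Pool.Agent.R526.CT.Pr D s = (({a : Fin r → Fin D | s a}.ncard : ℕ) : ℝ) / (D : ℝ) ^ r := by
  unfold Pool.Agent.R526.CT.Pr
  congr 2
  have h1 : {a : Fin r → Fin D | s a} = ↑(univ.filter s) := by
    ext a
    rw [mem_coe, mem_filter, Set.mem_setOf_eq]
    exact ⟨fun h => ⟨mem_univ _, h⟩, fun h => h.2⟩
  rw [h1, Set.ncard_coe_finset]

/-- Let `0 < ρ₀`, `ρ < 1` and `ρ₀ p^r ≤ |B p| ≤ ρ p^r` for all large primes `p`. For every `ε > 0` there are `c > 0`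
and `x₀` such that for every `D ≥ 1` and all but at most `ε D^r` vectors `a ∈ [0, D)^r`: for all `x` with
`x₀ ≤ x ≤ exp(c √(log D))` there are consecutive chosen primes `q < q' ≤ x` with
`q' - q ≥ (2 e^{-γ} / log(1 / (1 - ρ)) - ε) (log x)²`. For `ρ ≤ 1/5` the constant is larger than `1/ρ`. -/
theorem result {r : ℕ} (B : (p : ℕ) → Finset (Fin r → ZMod p)) (ρ₀ ρ : ℝ) (hρ₀ : 0 < ρ₀) (hρ : ρ < 1)
    (p₀ : ℕ) (hlo : ∀ p : ℕ, p.Prime → p₀ ≤ p → ρ₀ * (p : ℝ) ^ r ≤ ((B p).card : ℝ))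
    (hup : ∀ p : ℕ, p.Prime → p₀ ≤ p → ((B p).card : ℝ) ≤ ρ * (p : ℝ) ^ r) (ε : ℝ) (hε : 0 < ε) :
    (∃ c : ℝ, 0 < c ∧ ∃ x₀ : ℝ, ∀ D : ℕ, 0 < D →
      (({a : Fin r → Fin D | ¬ ∀ x : ℝ, x₀ ≤ x → x ≤ Real.exp (c * √(Real.log D)) →
        ∃ q q' : ℕ, Chosen B a q ∧ Chosen B a q' ∧ q < q' ∧ (q' : ℝ) ≤ x ∧
          (∀ p : ℕ, Chosen B a p → ¬ (q < p ∧ p < q')) ∧
          (2 * Real.exp (-Real.eulerMascheroniConstant) / Real.log (1 / (1 - ρ)) - ε) *
            (Real.log x) ^ 2 ≤ (q' : ℝ) - q}.ncard : ℝ) ≤ ε * (D : ℝ) ^ r)) ∧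
    (ρ ≤ 1 / 5 →
      1 / ρ < 2 * Real.exp (-Real.eulerMascheroniConstant) / Real.log (1 / (1 - ρ))) := by
  obtain ⟨p, hp1, hp2⟩ := Nat.exists_infinite_primes p₀
  have hpr : (0 : ℝ) < (p : ℝ) ^ r := by
    have : (0 : ℝ) < p := by exact_mod_cast hp2.pos
    positivity
  have hρρ : ρ₀ ≤ ρ := le_of_mul_le_mul_right ((hlo p hp2 hp1).trans (hup p hp2 hp1)) hpr
  have hρ0 : 0 < ρ := hρ₀.trans_le hρρ
  refine ⟨?_, fun h => Pool.Agent.R526.TP.const_gt ρ hρ0 h⟩
  obtain ⟨c, hc, x₀, h⟩ := Pool.Agent.R526.CT.congr_gaps B ρ₀ ρ hρ₀ (hρρ.trans hρ.le) hρ0 hρ p₀ hlo hup ε hε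
  refine ⟨c, hc, x₀, fun D hD => ?_⟩
  have h1 := h D hD
  have hDr : (0 : ℝ) < (D : ℝ) ^ r := by
    have : (0 : ℝ) < D := by exact_mod_cast hD
    positivity
  rw [pr_ncard, div_le_iff₀ hDr] at h1
  exact h1

open Classical in
/-- the vectors of nonzero squares modulo `p` -/
noncomputable def squares (r : ℕ) (p : ℕ) : Finset (Fin r → ZMod p) :=
  if h : p = 0 then ∅ else
    haveI : NeZero p := ⟨h⟩
    univ.filter (fun v => ∀ i, v i ≠ 0 ∧ IsSquare (v i))

theorem card_squares_one (p : ℕ) [hp : Fact p.Prime] (h2 : p ≠ 2)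
    [DecidablePred (fun v : ZMod p => v ≠ 0 ∧ IsSquare v)] :
    2 * ((univ.filter (fun v : ZMod p => v ≠ 0 ∧ IsSquare v)).card : ℤ) = p - 1 := by
  classical
  have hchar : ringChar (ZMod p) ≠ 2 := by
    rw [ZMod.ringChar_zmod_n]
    exact h2
  have h1 := quadraticChar_sum_zero hchar
  have h3 : ∀ v : ZMod p, (quadraticChar (ZMod p)) v =
      2 * (if v ≠ 0 ∧ IsSquare v then 1 else 0) - (if v ≠ 0 then 1 else 0) := by
    intro v
    by_cases hv : v = 0
    · simp [hv]
    · by_cases hs : IsSquare v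
      · rw [(quadraticChar_one_iff_isSquare hv).2 hs, if_pos ⟨hv, hs⟩, if_pos hv]
        norm_num
      · rw [(quadraticChar_neg_one_iff_not_isSquare).2 hs, if_neg (fun h => hs h.2), if_pos hv]
        norm_num
  rw [sum_congr rfl fun v _ => h3 v, sum_sub_distrib, ← mul_sum, sum_boole, sum_boole] at h1
  have h4 : ((univ.filter (fun v : ZMod p => v ≠ 0)).card : ℤ) = p - 1 := by
    rw [filter_ne', card_erase_of_mem (mem_univ _), card_univ, ZMod.card, Nat.cast_sub hp.out.one_lt.le]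
    simp
  rw [h4] at h1
  have h5 : (univ.filter (fun v : ZMod p => v ≠ 0 ∧ IsSquare v)).card =
      (univ.filter (fun v : ZMod p => v ≠ 0 ∧ IsSquare v)).card := rfl
  push_cast at h1
  linarith

theorem card_squares (r p : ℕ) (hp : p.Prime) (h2 : p ≠ 2) :
    ((squares r p).card : ℝ) = (((p : ℝ) - 1) / 2) ^ r := by
  classical
  haveI : Fact p.Prime := ⟨hp⟩
  have h1 : squares r p = Fintype.piFinset (fun _ : Fin r => univ.filter (fun v : ZMod p => v ≠ 0 ∧ IsSquare v)) := by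
    unfold squares
    rw [dif_neg hp.ne_zero]
    ext v
    rw [mem_filter, Fintype.mem_piFinset]
    constructor
    · rintro ⟨-, h⟩ i
      rw [mem_filter]
      exact ⟨mem_univ _, h i⟩
    · intro h
      exact ⟨mem_univ _, fun i => (mem_filter.1 (h i)).2⟩
  rw [h1, Fintype.card_piFinset, prod_const, card_univ, Fintype.card_fin, Nat.cast_pow]
  congr 1
  have h3 := card_squares_one p h2
  have h4 : 2 * ((univ.filter (fun v : ZMod p => v ≠ 0 ∧ IsSquare v)).card : ℝ) = (p : ℝ) - 1 := by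
    exact_mod_cast h3
  linarith

/-- the primes which split completely in `ℚ(√a_1, …, √a_r)`, for `r ≥ 3`: the gaps are longer than predicted -/
theorem split_primes (r : ℕ) (hr : 3 ≤ r) : ∃ C : ℝ, (2 : ℝ) ^ r < C ∧ ∀ ε : ℝ, 0 < ε →
    ∃ c : ℝ, 0 < c ∧ ∃ x₀ : ℝ, ∀ D : ℕ, 0 < D →
      (({a : Fin r → Fin D | ¬ ∀ x : ℝ, x₀ ≤ x → x ≤ Real.exp (c * √(Real.log D)) →
        ∃ q q' : ℕ, Chosen (squares r) a q ∧ Chosen (squares r) a q' ∧ q < q' ∧ (q' : ℝ) ≤ x ∧
          (∀ p : ℕ, Chosen (squares r) a p → ¬ (q < p ∧ p < q')) ∧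
          (C - ε) * (Real.log x) ^ 2 ≤ (q' : ℝ) - q}.ncard : ℝ) ≤ ε * (D : ℝ) ^ r) := by
  have hlo : ∀ p : ℕ, p.Prime → 3 ≤ p → (1 / 3 : ℝ) ^ r * (p : ℝ) ^ r ≤ ((squares r p).card : ℝ) := by
    intro p hp h3
    rw [card_squares r p hp (by omega), ← mul_pow]
    have : (3 : ℝ) ≤ p := by exact_mod_cast h3
    apply pow_le_pow_left₀ (by positivity)
    linarith
  have hup : ∀ p : ℕ, p.Prime → 3 ≤ p → ((squares r p).card : ℝ) ≤ (1 / 2 : ℝ) ^ r * (p : ℝ) ^ r := by
    intro p hp h3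
    rw [card_squares r p hp (by omega), ← mul_pow]
    have : (3 : ℝ) ≤ p := by exact_mod_cast h3
    apply pow_le_pow_left₀ (by linarith)
    linarith
  have h8 : (1 / 2 : ℝ) ^ r ≤ 1 / 8 := by
    calc (1 / 2 : ℝ) ^ r ≤ (1 / 2) ^ 3 := pow_le_pow_of_le_one (by norm_num) (by norm_num) hr
      _ = 1 / 8 := by norm_num
  refine ⟨2 * Real.exp (-Real.eulerMascheroniConstant) / Real.log (1 / (1 - (1 / 2 : ℝ) ^ r)), ?_,
    fun ε hε => (result (squares r) ((1 / 3) ^ r) ((1 / 2) ^ r) (by positivity) (by linarith) 3 hlo hup ε hε).1⟩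
  have h9 := (result (squares r) ((1 / 3) ^ r) ((1 / 2) ^ r) (by positivity) (by linarith) 3 hlo hup 1
    one_pos).2 (by linarith)
  refine lt_of_le_of_lt (le_of_eq ?_) h9
  rw [one_div_pow, one_div_one_div]

end Pool.Agent.Results.MP_f9960f_nt.RandomCongruenceConditions
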