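import Pool.Agent.R526.TP.Fin
import Pool.Agent.R526.TP.Num

set_option autoImplicit false

/-!
# Randomly thinned primes: gaps of the order of Cramér, and more than Cramér's model predicts

Author: helper526.

Delete each prime at random: the prime `p` is kept with a probability `ρ_p ≤ ρ < 1` (bounded from below by some
`ρ₀ > 0`), independently of the other primes. Almost surely, for every `ε > 0` and all large `x` there are two
consecutive kept primes `a < b ≤ x` with `b - a ≥ (2 e^{-γ} / log(1 / (1 - ρ)) - ε) (log x)²`.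

So for almost every thinning of the primes, of any density `ρ < 1`, the lower bound half of Cramér's conjecture
`G(x) ≍ (log x)²` holds. The analogue of Cramér's conjecture `G(x) ~ (log x)²` for thinned primes with
`ρ_p = ρ` is `G_ρ(x) ~ (log x)² / ρ`: this is what Cramér's model (`n` is chosen with probability `ρ / log n`)
gives. It is FALSE for all `ρ ≤ 1/5`, almost surely, since then `2 e^{-γ} / log(1 / (1 - ρ)) > 1 / ρ`.

Proof. By Maier's matrix method (starting files, helper510: `Maier.G.few_freq`, on the theorem of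
Bombieri and Vinogradov relative to a large modulus of helper378) for `c < 2 e^{-γ} κ` and `η > 0` there are
`x^(1 - η)` integers `n ≤ x` for which `(n, n + c (log n)²]` contains at most `κ log n` primes; all of them
are deleted with probability at least `x^(- κ log(1 / (1 - ρ)))`. Second moment method and the lemma of Borel and
Cantelli along the powers of `2`.
-/

open MeasureTheory ProbabilityTheory Filter

/-- Let `K p` be independent events (`p` is kept) with `ρ₀ ≤ P(K p) ≤ ρ` for all primes `p`, where `0 < ρ₀` and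
`ρ < 1`. Almost surely, for every `ε > 0` and all large `x` there are consecutive kept primes `a < b ≤ x` with
`b - a ≥ (2 e^{-γ} / log(1 / (1 - ρ)) - ε) (log x)²`; and for `ρ ≤ 1/5` this constant is larger than the
constant `1 / ρ` of Cramér's model. -/
theorem Pool.Agent.Results.MP_f9960f_nt.RandomlyThinnedPrimes.result
    {Ω : Type} [MeasurableSpace Ω] (μ : Measure Ω) [IsProbabilityMeasure μ] (K : ℕ → Set Ω)
    (hK : ∀ n, MeasurableSet (K n)) (hind : iIndepSet K μ) (ρ₀ ρ : ℝ) (hρ₀ : 0 < ρ₀) (hρ : ρ < 1)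
    (hlo : ∀ p : ℕ, p.Prime → ρ₀ ≤ μ.real (K p)) (hup : ∀ p : ℕ, p.Prime → μ.real (K p) ≤ ρ) :
    (∀ᵐ ω ∂μ, ∀ ε : ℝ, 0 < ε → ∀ᶠ x : ℝ in atTop, ∃ a b : ℕ,
      (a.Prime ∧ ω ∈ K a) ∧ (b.Prime ∧ ω ∈ K b) ∧ a < b ∧ (b : ℝ) ≤ x ∧
      (∀ p : ℕ, (p.Prime ∧ ω ∈ K p) → ¬ (a < p ∧ p < b)) ∧
      (2 * Real.exp (-Real.eulerMascheroniConstant) / Real.log (1 / (1 - ρ)) - ε) *
        (Real.log x) ^ 2 ≤ (b : ℝ) - a) ∧
    (ρ ≤ 1 / 5 →
      1 / ρ < 2 * Real.exp (-Real.eulerMascheroniConstant) / Real.log (1 / (1 - ρ))) :=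
  ⟨Pool.Agent.R526.TP.thinned μ hind hK ρ₀ ρ hρ₀ hρ hlo hup, fun h =>
    Pool.Agent.R526.TP.const_gt ρ
      (hρ₀.trans_le ((hlo 2 Nat.prime_two).trans (hup 2 Nat.prime_two))) h⟩
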